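import Pool.Agent.K.MP_05c0aa_nt.C0

theorem Pool.Agent.Results.MP_05c0aa_nt.Automatic.result (k : ℕ) (hk : 2 ≤ k) (f : ℕ → ℕ)
    (hf : ∀ n, f n = if n % 2 = 0 then 3 * n / 2 else (3 * n + 1) / 4) (A : Set ℕ)
    (hA : Language.IsRegular (Nat.digits k '' A)) (hc : ∀ n ∈ A, f n ∈ A) :
    (A.Finite ∨ Aᶜ.Finite) ∧
      ∀ a ∈ A, ∀ b ∉ A, a ∈ Function.periodicPts f ∨ b ∈ Function.periodicPts f :=
  Pool.Agent.P.MP_05c0aa_nt.main k hk f hf A hA hc
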